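import Pool.Agent.helper32.QS.Spec

set_option autoImplicit false

open scoped BigOperators commutatorElement

namespace QS

section IMPsec

variable {H V ι : Type} [Group H] [AddCommGroup V] [DistribMulAction H V] [Fintype ι]

/-- the data of an imprimitive module, with the action on the index set -/
structure IMP_D (H : Type) {V ι : Type} [Group H] [AddCommGroup V] [DistribMulAction H V] [Fintype ι]
    [MulAction H ι] (W : ι → AddSubgroup V) : Prop where
  ne : ∀ i, W i ≠ ⊥
  sp : ∀ v : V, ∃ f : ι → V, (∀ i, f i ∈ W i) ∧ ∑ i, f i = v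
  ind : ∀ f : ι → V, (∀ i, f i ∈ W i) → ∑ i, f i = 0 → ∀ i, f i = 0
  act : ∀ (h : H) (i : ι) (v : V), v ∈ W i → h • v ∈ W (h • i)

variable [MulAction H ι] {W : ι → AddSubgroup V}

/-- the components of a vector -/
noncomputable def IMP_pr (D : IMP_D H W) (v : V) : ι → V := Classical.choose (D.sp v)

theorem IMP_pr_mem (D : IMP_D H W) (v : V) (i : ι) : IMP_pr D v i ∈ W i :=
  (Classical.choose_spec (D.sp v)).1 i

theorem IMP_pr_sum (D : IMP_D H W) (v : V) : ∑ i, IMP_pr D v i = v :=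
  (Classical.choose_spec (D.sp v)).2

theorem IMP_pr_uniq (D : IMP_D H W) (v : V) (f : ι → V) (hf : ∀ i, f i ∈ W i)
    (hs : ∑ i, f i = v) (i : ι) : IMP_pr D v i = f i := by
  have h := D.ind (fun i => IMP_pr D v i - f i)
    (fun i => (W i).sub_mem (IMP_pr_mem D v i) (hf i))
    (by rw [Finset.sum_sub_distrib, IMP_pr_sum, hs, sub_self]) i
  exact sub_eq_zero.1 h

theorem IMP_pr_add (D : IMP_D H W) (v w : V) (i : ι) :
    IMP_pr D (v + w) i = IMP_pr D v i + IMP_pr D w i :=
  IMP_pr_uniq D (v + w) (fun i => IMP_pr D v i + IMP_pr D w i)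
    (fun i => (W i).add_mem (IMP_pr_mem D v i) (IMP_pr_mem D w i))
    (by rw [Finset.sum_add_distrib, IMP_pr_sum, IMP_pr_sum]) i

theorem IMP_pr_zero (D : IMP_D H W) (i : ι) : IMP_pr D 0 i = 0 :=
  IMP_pr_uniq D 0 (fun _ => 0) (fun i => (W i).zero_mem) (by simp) i

theorem IMP_pr_neg (D : IMP_D H W) (v : V) (i : ι) :
    IMP_pr D (-v) i = - IMP_pr D v i :=
  IMP_pr_uniq D (-v) (fun i => - IMP_pr D v i)
    (fun i => (W i).neg_mem (IMP_pr_mem D v i))
    (by rw [Finset.sum_neg_distrib, IMP_pr_sum]) i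

theorem IMP_pr_same (D : IMP_D H W) (v : V) (i : ι) (hv : v ∈ W i) : IMP_pr D v i = v := by
  classical
  have := IMP_pr_uniq D v (fun j => if j = i then v else 0)
    (fun j => by
      by_cases h : j = i
      · subst h; simpa using hv
      · simp only [h, if_false]; exact (W j).zero_mem)
    (by simp) i
  simpa using this

theorem IMP_pr_diff (D : IMP_D H W) (v : V) (i j : ι) (hv : v ∈ W i) (hj : j ≠ i) :
    IMP_pr D v j = 0 := by
  classical
  have := IMP_pr_uniq D v (fun j => if j = i then v else 0)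
    (fun j => by
      by_cases h : j = i
      · subst h; simpa using hv
      · simp only [h, if_false]; exact (W j).zero_mem)
    (by simp) j
  simpa [hj] using this

theorem IMP_pr_smul (D : IMP_D H W) (h : H) (v : V) (i : ι) :
    IMP_pr D (h • v) (h • i) = h • IMP_pr D v i := by
  have key := IMP_pr_uniq D (h • v) (fun j => h • IMP_pr D v (h⁻¹ • j))
    (fun j => by
      have h1 := D.act h (h⁻¹ • j) _ (IMP_pr_mem D v (h⁻¹ • j))
      rwa [smul_inv_smul] at h1)
    (by
      rw [← Finset.smul_sum]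
      have e : ∑ j, IMP_pr D v (h⁻¹ • j) = ∑ j, IMP_pr D v j :=
        Fintype.sum_equiv (MulAction.toPerm (h⁻¹ : H)) _ _ (fun j => rfl)
      rw [e, IMP_pr_sum]) (h • i)
  rw [key]
  show h • IMP_pr D v (h⁻¹ • h • i) = _
  rw [inv_smul_smul]

theorem IMP_smul_mem (D : IMP_D H W) (h : H) (i : ι) (v : V) (hi : h • i = i) (hv : v ∈ W i) :
    h • v ∈ W i := by
  have := D.act h i v hv
  rwa [hi] at this

/-- transitivity on the index set -/
theorem IMP_trans (D : IMP_D H W) (hirr : Irr H V) : MulAction.IsPretransitive H ι := by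
  constructor
  intro i₀ i
  let X : AddSubgroup V :=
    { carrier := {v | ∀ j, j ∉ MulAction.orbit H i₀ → IMP_pr D v j = 0}
      zero_mem' := fun j _ => IMP_pr_zero D j
      add_mem' := fun {a b} ha hb j hj => by
        rw [IMP_pr_add, ha j hj, hb j hj, add_zero]
      neg_mem' := fun {a} ha j hj => by
        rw [IMP_pr_neg, ha j hj, neg_zero] }
  have hX : ∀ (h : H), ∀ v ∈ X, h • v ∈ X := by
    intro h v hv j hj
    have e := IMP_pr_smul D h v (h⁻¹ • j)
    rw [smul_inv_smul] at e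
    rw [e]
    have : h⁻¹ • j ∉ MulAction.orbit H i₀ := by
      intro hcon
      apply hj
      have h5 := MulAction.mem_orbit_of_mem_orbit h hcon
      rwa [smul_inv_smul] at h5
    rw [hv _ this, smul_zero]
  rcases hirr X hX with h | h
  · exfalso
    obtain ⟨u, hu, hu0⟩ := (W i₀).bot_or_exists_ne_zero.resolve_left (D.ne i₀)
    have : u ∈ X := by
      intro j hj
      apply IMP_pr_diff D u i₀ j hu
      rintro rfl
      exact hj (MulAction.mem_orbit_self _)
    rw [h] at this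
    exact hu0 (AddSubgroup.mem_bot.1 this)
  · obtain ⟨u, hu, hu0⟩ := (W i).bot_or_exists_ne_zero.resolve_left (D.ne i)
    have h1 : u ∈ X := by rw [h]; exact AddSubgroup.mem_top u
    by_contra hcon
    have h2 : i ∉ MulAction.orbit H i₀ := by
      rintro ⟨g, hg⟩
      exact hcon ⟨g, hg⟩
    have h3 := h1 i h2
    rw [IMP_pr_same D u i hu] at h3
    exact hu0 h3

/-- the action of the stabiliser on the component -/
@[instance_reducible] def IMP_inst (D : IMP_D H W) (i₀ : ι) : DistribMulAction (MulAction.stabilizer H i₀) (W i₀) where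
  smul n u := ⟨(n : H) • (u : V), IMP_smul_mem D n i₀ u n.2 u.2⟩
  one_smul u := by
    apply Subtype.ext
    show (1 : H) • (u : V) = u
    rw [one_smul]
  mul_smul a b u := by
    apply Subtype.ext
    show ((a : H) * (b : H)) • (u : V) = (a : H) • (b : H) • (u : V)
    rw [mul_smul]
  smul_zero a := by
    apply Subtype.ext
    show (a : H) • ((0 : W i₀) : V) = ((0 : W i₀) : V)
    rw [AddSubgroup.coe_zero, smul_zero]
  smul_add a u v := by
    apply Subtype.ext
    show (a : H) • (((u + v : W i₀)) : V) = (a : H) • (u : V) + (a : H) • (v : V)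
    rw [AddSubgroup.coe_add, smul_add]

/-- the action of the stabiliser on the component, as a homomorphism -/
noncomputable def IMP_phi (D : IMP_D H W) (i₀ : ι) :
    MulAction.stabilizer H i₀ →* (AddMonoid.End (W i₀))ˣ :=
  letI := IMP_inst D i₀
  (DistribMulAction.toAddMonoidEnd (MulAction.stabilizer H i₀) (W i₀)).toHomUnits

theorem IMP_phi_apply (D : IMP_D H W) (i₀ : ι) (n : MulAction.stabilizer H i₀) (u : W i₀) :
    (((IMP_phi D i₀ n) • u : W i₀) : V) = (n : H) • (u : V) := rfl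

theorem IMP_phi_apply' (D : IMP_D H W) (i₀ : ι) (n : MulAction.stabilizer H i₀) (u : W i₀)
    (h : IMP_phi D i₀ n ∈ (IMP_phi D i₀).range) :
    ((((⟨IMP_phi D i₀ n, h⟩ : (IMP_phi D i₀).range)) • u : W i₀) : V) = (n : H) • (u : V) := rfl

theorem IMP_finite [Finite H] (D : IMP_D H W) (i₀ : ι) : Finite (IMP_phi D i₀).range :=
  Set.Finite.to_subtype (Set.finite_range (IMP_phi D i₀))

theorem IMP_solv (hs : Group.IsSolvable H) (D : IMP_D H W) (i₀ : ι) :
    Group.IsSolvable (IMP_phi D i₀).range := by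
  have := hs
  exact Group.isSolvable_of_surjective (IMP_phi D i₀).rangeRestrict_surjective

theorem IMP_rr (D : IMP_D H W) (i₀ : ι) (n : MulAction.stabilizer H i₀) (u : W i₀) :
    ((((IMP_phi D i₀).rangeRestrict n) • u : W i₀) : V) = (n : H) • (u : V) := rfl

theorem IMP_irr (D : IMP_D H W) (hirr : Irr H V) (i₀ : ι) :
    Irr (IMP_phi D i₀).range (W i₀) := by
  intro U₁ hU
  let X : AddSubgroup V :=
    { carrier := {v | ∀ h : H, ∃ u ∈ U₁, (u : V) = IMP_pr D (h • v) i₀}
      zero_mem' := fun h => ⟨0, U₁.zero_mem, by rw [smul_zero, IMP_pr_zero]; rfl⟩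
      add_mem' := fun {a b} ha hb h => by
        obtain ⟨u, hu, hu2⟩ := ha h
        obtain ⟨w, hw, hw2⟩ := hb h
        refine ⟨u + w, U₁.add_mem hu hw, ?_⟩
        rw [smul_add, IMP_pr_add, ← hu2, ← hw2]; rfl
      neg_mem' := fun {a} ha h => by
        obtain ⟨u, hu, hu2⟩ := ha h
        refine ⟨-u, U₁.neg_mem hu, ?_⟩
        rw [smul_neg, IMP_pr_neg, ← hu2]; rfl }
  have hX : ∀ (h : H), ∀ v ∈ X, h • v ∈ X := by
    intro g v hv h
    obtain ⟨u, hu, hu2⟩ := hv (h * g)
    exact ⟨u, hu, by rw [hu2, mul_smul]⟩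
  rcases hirr X hX with h | h
  · left
    rw [eq_bot_iff]
    intro u hu
    have : (u : V) ∈ X := by
      intro g
      by_cases hg : g • i₀ = i₀
      · refine ⟨(IMP_phi D i₀).rangeRestrict ⟨g, hg⟩ • u, hU _ u hu, ?_⟩
        rw [IMP_rr, IMP_pr_same D _ i₀ (IMP_smul_mem D g i₀ u hg u.2)]
      · refine ⟨0, U₁.zero_mem, ?_⟩
        rw [IMP_pr_diff D (g • (u : V)) (g • i₀) i₀ (D.act g i₀ u u.2) (fun e => hg e.symm)]
        rfl
    rw [h] at this
    rw [AddSubgroup.mem_bot] at this ⊢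
    exact Subtype.ext this
  · right
    rw [eq_top_iff]
    intro u _
    have h1 : (u : V) ∈ X := by rw [h]; exact AddSubgroup.mem_top _
    obtain ⟨w, hw, hw2⟩ := h1 1
    rw [one_smul, IMP_pr_same D _ i₀ u.2] at hw2
    rwa [← Subtype.ext hw2]

theorem IMP_fai (D : IMP_D H W) (i₀ : ι) : Fai (IMP_phi D i₀).range (W i₀) := by
  intro h hh
  apply Subtype.ext
  apply Units.ext
  ext u
  exact congrArg Subtype.val (hh u)

theorem IMP_pr_vec (D : IMP_D H W) (i₀ : ι) (t : ι → H) (ht : ∀ i, t i • i₀ = i)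
    (c : ι → W i₀) (i : ι) : IMP_pr D (∑ i, t i • (c i : V)) i = t i • (c i : V) :=
  IMP_pr_uniq D _ (fun i => t i • (c i : V))
    (fun i => by
      have := D.act (t i) i₀ _ (c i).2
      rwa [ht i] at this) rfl i

theorem IMP_key (D : IMP_D H W) (i₀ : ι) (t : ι → H) (ht : ∀ i, t i • i₀ = i)
    (c c' : ι → W i₀) (h : H) (he : h • (∑ i, t i • (c i : V)) = ∑ i, t i • (c' i : V)) (i : ι) :
    ∃ n : MulAction.stabilizer H i₀, (n : H) = (t (h • i))⁻¹ * h * t i ∧
      (IMP_phi D i₀).rangeRestrict n • c i = c' (h • i) := by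
  have hn : (t (h • i))⁻¹ * h * t i ∈ MulAction.stabilizer H i₀ := by
    rw [MulAction.mem_stabilizer_iff, mul_smul, mul_smul, ht i, inv_smul_eq_iff, ht]
  refine ⟨⟨_, hn⟩, rfl, ?_⟩
  apply Subtype.ext
  rw [IMP_rr]
  show ((t (h • i))⁻¹ * h * t i) • (c i : V) = c' (h • i)
  have h1 := IMP_pr_smul D h (∑ i, t i • (c i : V)) i
  rw [he, IMP_pr_vec D i₀ t ht, IMP_pr_vec D i₀ t ht] at h1
  rw [mul_smul, mul_smul, ← h1, inv_smul_smul]

theorem IMP_heis_map {G K : Type} [Group G] [Group K] (p : ℕ) (f : G →* K) {x y : G}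
    (h : Heis p x y) (hne : f ⁅x, y⁆ ≠ 1) : Heis p (f x) (f y) := by
  obtain ⟨h1, h2, h3, h4, h5⟩ := h
  have e : f ⁅x, y⁆ = ⁅f x, f y⁆ := map_commutatorElement f x y
  refine ⟨?_, ?_, ?_, ?_, ?_⟩
  · rw [← map_pow, h1, map_one]
  · rw [← map_pow, h2, map_one]
  · rwa [← e]
  · rw [← e, ← map_mul, h4, map_mul]
  · rw [← e, ← map_mul, h5, map_mul]

theorem IMP_heis_sub {G : Type} [Group G] (p : ℕ) (S : Subgroup G) {x y : S}
    (h : Heis p (x : G) (y : G)) : Heis p x y := by
  obtain ⟨h1, h2, h3, h4, h5⟩ := h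
  have e : ((⁅x, y⁆ : S) : G) = ⁅(x : G), (y : G)⁆ := map_commutatorElement S.subtype x y
  refine ⟨?_, ?_, ?_, ?_, ?_⟩
  · apply Subtype.ext; rw [Subgroup.coe_pow]; exact h1
  · apply Subtype.ext; rw [Subgroup.coe_pow]; exact h2
  · intro hcon; apply h3; rw [← e, hcon]; rfl
  · apply Subtype.ext; rw [Subgroup.coe_mul, Subgroup.coe_mul, e]; exact h4
  · apply Subtype.ext; rw [Subgroup.coe_mul, Subgroup.coe_mul, e]; exact h5

theorem IMP_good (p : ℕ) (hf : Fai H V) (D : IMP_D H W) (i₀ : ι) (t : ι → H)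
    (ht : ∀ i, t i • i₀ = i) (c : ι → W i₀)
    (hgood : ∀ i, Good p (IMP_phi D i₀).range (c i))
    (hx : ∀ x : H, x ^ p = 1 → x • (∑ i, t i • (c i : V)) = ∑ i, t i • (c i : V) → ∀ i : ι, x • i = i) :
    Good p H (∑ i, t i • (c i : V)) := by
  intro x y hxy hx1 hy1
  have hxi := hx x hxy.1 hx1
  have hyi := hx y hxy.2.1 hy1
  apply hxy.2.2.1
  apply hf
  have hW : ∀ i, ∀ w ∈ W i, ⁅x, y⁆ • w = w := by
    intro i w hw
    by_contra hne
    obtain ⟨n, hn, hnc⟩ := IMP_key D i₀ t ht c c x hx1 i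
    obtain ⟨m, hm, hmc⟩ := IMP_key D i₀ t ht c c y hy1 i
    rw [hxi i] at hn hnc
    rw [hyi i] at hm hmc
    have hn' : (n : H) = MulAut.conj (t i)⁻¹ x := by
      rw [hn, MulAut.conj_apply, inv_inv]
    have hm' : (m : H) = MulAut.conj (t i)⁻¹ y := by
      rw [hm, MulAut.conj_apply, inv_inv]
    have hH1 : Heis p (n : H) (m : H) := by
      rw [hn', hm']
      apply IMP_heis_map p (MulAut.conj (t i)⁻¹).toMonoidHom hxy
      intro hcon
      apply hxy.2.2.1
      exact (MulAut.conj (t i)⁻¹).injective (by rw [map_one]; exact hcon)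
    have hH2 : Heis p n m := IMP_heis_sub p _ hH1
    have hco : ((⁅n, m⁆ : MulAction.stabilizer H i₀) : H) = (t i)⁻¹ * ⁅x, y⁆ * t i := by
      rw [show ((⁅n, m⁆ : MulAction.stabilizer H i₀) : H) = ⁅(n : H), (m : H)⁆ from
        map_commutatorElement (MulAction.stabilizer H i₀).subtype n m, hn', hm',
        ← map_commutatorElement, MulAut.conj_apply, inv_inv]
    have hmem : (t i)⁻¹ • w ∈ W i₀ := by
      have := D.act (t i)⁻¹ i w hw
      rwa [show (t i)⁻¹ • i = i₀ from by rw [inv_smul_eq_iff, ht i]] at this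
    have hH3 : Heis p ((IMP_phi D i₀).rangeRestrict n) ((IMP_phi D i₀).rangeRestrict m) := by
      apply IMP_heis_map p _ hH2
      intro hcon
      have h1 : (((IMP_phi D i₀).rangeRestrict ⁅n, m⁆) • (⟨(t i)⁻¹ • w, hmem⟩ : W i₀) : W i₀)
          = ⟨(t i)⁻¹ • w, hmem⟩ := by rw [hcon, one_smul]
      have h2 := congrArg Subtype.val h1
      rw [IMP_rr, hco] at h2
      simp only [mul_smul, smul_inv_smul] at h2
      exact hne (by simpa using congrArg (fun v => t i • v) h2)
    exact hgood i _ _ hH3 hnc hmc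
  intro v
  calc ⁅x, y⁆ • v = ⁅x, y⁆ • ∑ i, IMP_pr D v i := by rw [IMP_pr_sum]
    _ = ∑ i, ⁅x, y⁆ • IMP_pr D v i := Finset.smul_sum
    _ = ∑ i, IMP_pr D v i := Finset.sum_congr rfl (fun i _ => hW i _ (IMP_pr_mem D v i))
    _ = v := IMP_pr_sum D v

theorem IMP_main (hPERM : PERM_stmt) (p : ℕ) (hp : p.Prime) (h5 : 5 ≤ p) [Finite V] [Finite H]
    (hs : Group.IsSolvable H) (hf : Fai H V) (hirr : Irr H V)
    (hc : ¬ p ∣ Nat.card V) (D : IMP_D H W) (htwo : 2 ≤ Fintype.card ι)
    (hT : TwoFor p (Nat.card V)) : Two p H V := by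
  classical
  have := IMP_trans D hirr
  have hne : Nonempty ι := Fintype.card_pos_iff.1 (by omega)
  obtain ⟨i₀⟩ := hne
  have hne : Nonempty ι := ⟨i₀⟩
  obtain ⟨Δ, hΔ1, hΔ2⟩ := hPERM p hp h5 H ι hs
  obtain ⟨j₀, hj₀⟩ : ∃ j : ι, j ≠ i₀ := Fintype.exists_ne_of_one_lt_card (by omega) i₀
  have hdvd : Nat.card (W i₀) ∣ Nat.card V := AddSubgroup.card_addSubgroup_dvd_card (W i₀)
  have hlt : Nat.card (W i₀) < Nat.card V := by
    refine lt_of_le_of_ne (Nat.le_of_dvd Nat.card_pos hdvd) ?_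
    intro hcon
    have htop : W i₀ = ⊤ := AddSubgroup.eq_top_of_card_eq (W i₀) hcon
    obtain ⟨u, hu, hu0⟩ := (W j₀).bot_or_exists_ne_zero.resolve_left (D.ne j₀)
    have h1 : u ∈ W i₀ := by rw [htop]; exact AddSubgroup.mem_top u
    have h2 := IMP_pr_same D u i₀ h1
    rw [IMP_pr_diff D u j₀ i₀ hu hj₀.symm] at h2
    exact hu0 h2.symm
  have hnt : Nontrivial (W i₀) := by
    obtain ⟨u, hu, hu0⟩ := (W i₀).bot_or_exists_ne_zero.resolve_left (D.ne i₀)
    exact ⟨⟨u, hu⟩, 0, fun h => hu0 (congrArg Subtype.val h)⟩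
  have hfin := IMP_finite D i₀
  obtain ⟨u₁, u₂, hg1, hg2, hor⟩ := hT (W i₀) (IMP_phi D i₀).range hlt hnt (IMP_solv hs D i₀)
    (IMP_fai D i₀) (IMP_irr D hirr i₀) (fun h => hc (h.trans hdvd))
  have hor' : ∀ h : (IMP_phi D i₀).range, h • u₂ ≠ u₁ := by
    intro h hh
    apply hor h⁻¹
    rw [← hh, inv_smul_smul]
  choose t ht using fun i => MulAction.exists_smul_eq H i₀ i
  have hfin2 : Finite ι := Finite.of_fintype ι
  set c : ι → W i₀ := fun i => if i ∈ Δ then u₁ else u₂ with hcdef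
  set c' : ι → W i₀ := fun i => if i ∈ Δ then u₂ else u₁ with hcdef'
  have c1 : ∀ i, i ∈ Δ → c i = u₁ := fun i hi => by simp only [hcdef, if_pos hi]
  have c2 : ∀ i, i ∉ Δ → c i = u₂ := fun i hi => by simp only [hcdef, if_neg hi]
  have c1' : ∀ i, i ∈ Δ → c' i = u₂ := fun i hi => by simp only [hcdef', if_pos hi]
  have c2' : ∀ i, i ∉ Δ → c' i = u₁ := fun i hi => by simp only [hcdef', if_neg hi]
  refine ⟨∑ i, t i • (c i : V), ∑ i, t i • (c' i : V), ?_, ?_, ?_⟩
  · apply IMP_good p hf D i₀ t ht c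
    · intro i
      by_cases hi : i ∈ Δ
      · rw [c1 i hi]; exact hg1
      · rw [c2 i hi]; exact hg2
    · intro x hxp hxc
      apply hΔ2 x (fun ω => by rw [hxp, one_smul])
      intro ω hω
      by_contra hcon
      obtain ⟨n, _, hn⟩ := IMP_key D i₀ t ht c c x hxc ω
      rw [c1 ω hω, c2 _ hcon] at hn
      exact hor _ hn
  · apply IMP_good p hf D i₀ t ht c'
    · intro i
      by_cases hi : i ∈ Δ
      · rw [c1' i hi]; exact hg2
      · rw [c2' i hi]; exact hg1
    · intro x hxp hxc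
      apply hΔ2 x (fun ω => by rw [hxp, one_smul])
      intro ω hω
      by_contra hcon
      obtain ⟨n, _, hn⟩ := IMP_key D i₀ t ht c' c' x hxc ω
      rw [c1' ω hω, c2' _ hcon] at hn
      exact hor' _ hn
  · intro h hh
    have hA : ∀ i, i ∈ Δ → h • i ∉ Δ := by
      intro i hi hcon
      obtain ⟨n, _, hn⟩ := IMP_key D i₀ t ht c c' h hh i
      rw [c1 i hi, c1' _ hcon] at hn
      exact hor _ hn
    have hB : ∀ i, i ∉ Δ → h • i ∈ Δ := by
      intro i hi
      by_contra hcon
      obtain ⟨n, _, hn⟩ := IMP_key D i₀ t ht c c' h hh i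
      rw [c2 i hi, c2' _ hcon] at hn
      exact hor' _ hn
    have him : (fun i : ι => h • i) '' Δ = Δᶜ := by
      ext j
      constructor
      · rintro ⟨i, hi, rfl⟩
        exact hA i hi
      · intro hj
        refine ⟨h⁻¹ • j, ?_, smul_inv_smul h j⟩
        by_contra hcon
        have := hB _ hcon
        rw [smul_inv_smul] at this
        exact hj this
    have hcard : Δᶜ.ncard = Δ.ncard := by
      rw [← him]
      exact Set.ncard_image_of_injective Δ (MulAction.injective h)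
    have hsum := Set.ncard_add_ncard_compl Δ
    rw [hcard] at hsum
    exact hΔ1 (by omega)

end IMPsec

theorem IMP (hPERM : PERM_stmt) : IMP_stmt := by
  intro p hp h5 V _ _ H _ _ _ _ hs hf hirr hc himpr hT
  classical
  obtain ⟨ι, _, W, htwo, hne, hsp, hind, hperm⟩ := himpr
  have hinj : ∀ i j, W i = W j → i = j := by
    intro i j hij
    by_contra hne2
    obtain ⟨u, hu, hu0⟩ := (W i).bot_or_exists_ne_zero.resolve_left (hne i)
    have h1 := hind (fun k => (if k = i then u else 0) - (if k = j then u else 0))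
      (fun k => by
        apply (W k).sub_mem
        · by_cases h : k = i
          · subst h; simpa using hu
          · simp only [h, if_false]; exact (W k).zero_mem
        · by_cases h : k = j
          · subst h; rw [hij] at hu; simpa using hu
          · simp only [h, if_false]; exact (W k).zero_mem)
      (by simp) i
    simp only [if_true, if_neg hne2, sub_zero] at h1
    exact hu0 h1
  choose σ hσ using hperm
  let act : MulAction H ι :=
    { smul := σ
      one_smul := fun i => by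
        apply hinj
        ext v
        have := hσ 1 i v
        rw [one_smul] at this
        exact this.symm
      mul_smul := fun g h i => by
        apply hinj
        ext u
        have h1 := hσ (g * h) i ((g * h)⁻¹ • u)
        have h2 := hσ h i ((g * h)⁻¹ • u)
        have h3 := hσ g (σ h i) (h • (g * h)⁻¹ • u)
        rw [smul_inv_smul] at h1
        have e : g • h • (g * h)⁻¹ • u = u := by
          rw [smul_smul, smul_inv_smul]
        rw [e] at h3
        exact h1.symm.trans (h2.trans h3) }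
  have D : IMP_D H W := ⟨hne, hsp, hind, fun h i v hv => (hσ h i v).1 hv⟩
  exact IMP_main hPERM p hp h5 hs hf hirr hc D htwo hT

end QS
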